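import Pool.Agent.H8.EDA.Targets
import Pool.Agent.H2.ED.Gam1

/-!
# Row FVSF: heights of the iterates on a totally invariant closed subset
-/

set_option autoImplicit false

open MvPolynomial
open Pool.Agent.H12.ZD (pmap)
open Pool.Agent.H18.HIT Pool.Agent.H18.HX Pool.Agent.H18.VZ
open Pool.Agent.H8.ZA (HFam Const NA)
open Pool.Agent.H8.TD (lc dg Cop)
open Pool.Agent.H8.TX (hn)
open Pool.Agent.H2.ED
open Pool.Agent.H18.TE (lg Gc)
open Pool.Agent.H18.TXB (avn)
open Pool.Agent.H18.EDB (dgm)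
open Pool.Agent.H8.EDA

namespace Pool.Agent.H4.EDA

section alg

variable {ν r D : ℕ} {k κ : Type} [Field k] [Field κ] [Algebra k κ] {V : Ideal (Po (ν + 2) k)}
  {G : Tup (ν + 2) k} {η : Fin (ν + 2) → κ} {τ : κ →ₐ[k] κ}

theorem tauv_aeval (h : Fv V r G η τ) {q : Po (ν + 2) k} {s : ℕ} (hq : q.IsHomogeneous s) :
    τ (aeval η q) * aeval η (G 1) ^ s = aeval η (aeval G q) := by
  have h1 : τ (aeval η q) = aeval (fun i => τ (η i)) q := by
    rw [← AlgHom.comp_apply, comp_aeval]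
  have h2 : (fun i => aeval η (G i)) = fun i => aeval η (G 1) * τ (η i) := by
    funext i
    rw [← h.eq i, mul_comm]
  have h3 : aeval η (aeval G q) = aeval (fun i => aeval η (G i)) q := by
    rw [← AlgHom.comp_apply, comp_aeval]
  rw [h1, h3, h2, aeval_smul_hom hq, mul_comm]

theorem it_mem (hinv : ∀ q, aeval G q ∈ V ↔ q ∈ V) (n : ℕ) (q : Po (ν + 2) k) :
    aeval (it G n) q ∈ V ↔ q ∈ V := by
  induction n generalizing q with
  | zero => rw [it_zero, aeval_X_left_apply]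
  | succ n ih => rw [aeval_it_succ', hinv, ih]

theorem pnv_eq (h : Fv V r G η τ) (hX : X 1 ∉ V) (hG : ∀ i, (G i).IsHomogeneous D)
    (hinv : ∀ q, aeval G q ∈ V ↔ q ∈ V) (n : ℕ) : aeval η (it G n 1) ≠ 0 ∧
      ∀ i, pn τ η n i = aeval η (it G n i) / aeval η (it G n 1) := by
  have hne : ∀ n, aeval η (it G n 1) ≠ 0 := by
    intro n h0
    have h1 := (h.gv.iff (D ^ n) (it G n 1) (it_hom hG n 1)).1 h0
    apply hX
    rw [← it_mem hinv n, aeval_X]
    exact h1
  refine ⟨hne n, ?_⟩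
  induction n with
  | zero =>
    intro i
    have h1 : ∀ i, aeval η (it G 0 i) = η i := by
      intro i
      rw [it_zero, aeval_X]
    rw [h1, h1, h.gv.one, div_one]
    rfl
  | succ n ih =>
    intro i
    have hF1 : aeval η (G 1) ≠ 0 := by
      have := hne 1
      rwa [it_one] at this
    have h1 : pn τ η (n + 1) i = τ (pn τ η n i) := Function.iterate_succ_apply' _ _ _
    have h2 : ∀ i, τ (aeval η (it G n i)) * aeval η (G 1) ^ (D ^ n) =
        aeval η (it G (n + 1) i) := by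
      intro i
      rw [tauv_aeval h (it_hom hG n i), it_succ']
      rfl
    rw [h1, ih, map_div₀, ← h2, ← h2, mul_div_mul_right _ _ (pow_ne_zero _ hF1)]

/-- a form which vanishes at `(1, μ)` is zero -/
theorem cons_ne {ρ Y : ℕ} [Infinite k] {μ : Fin ρ → κ} (hμ : AlgebraicIndependent k μ)
    {C : Po (ρ + 1) k} (hC : C.IsHomogeneous Y) (h0 : C ≠ 0) :
    aeval (Fin.cons 1 μ : Fin (ρ + 1) → κ) C ≠ 0 := by
  intro hz
  obtain ⟨S, hS⟩ : ∃ S : Fin (ρ + 1) → Po ρ k, S = Fin.cons 1 (fun i => X i) := ⟨_, rfl⟩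
  have e1 : aeval μ (aeval S C) = aeval (Fin.cons 1 μ : Fin (ρ + 1) → κ) C := by
    rw [← AlgHom.comp_apply, comp_aeval]
    congr 2
    funext i
    refine Fin.cases ?_ (fun i => ?_) i
    · rw [hS, Fin.cons_zero, Fin.cons_zero, map_one]
    · rw [hS, Fin.cons_succ, Fin.cons_succ, aeval_X]
  have e2 : aeval S C = 0 := by
    apply hμ
    rw [map_zero]
    exact e1.trans hz
  have e3 : X 0 * C = 0 := by
    apply MvPolynomial.funext
    intro w
    rw [map_mul, eval_X, map_zero]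
    by_cases hw : w 0 = 0
    · rw [hw, zero_mul]
    · have e4 : w = fun i => w 0 * ((Fin.cons 1 (fun i : Fin ρ => w i.succ / w 0) :
          Fin (ρ + 1) → k) i) := by
        funext i
        refine Fin.cases ?_ (fun i => ?_) i
        · rw [Fin.cons_zero, mul_one]
        · rw [Fin.cons_succ, mul_div_cancel₀ _ hw]
      have e5 : eval (Fin.cons 1 (fun i : Fin ρ => w i.succ / w 0) : Fin (ρ + 1) → k) C = 0 := by
        have e6 : eval (fun i : Fin ρ => w i.succ / w 0) (aeval S C) =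
            eval (Fin.cons 1 (fun i : Fin ρ => w i.succ / w 0) : Fin (ρ + 1) → k) C := by
          have e7 : ∀ (N : ℕ) (x : Fin N → k) (q : Po N k), eval x q = aeval x q := fun N x q => by
            rw [aeval_def, ← eval₂_id]
            rfl
          rw [e7, e7, ← AlgHom.comp_apply, comp_aeval]
          congr 2
          funext i
          refine Fin.cases ?_ (fun i => ?_) i
          · rw [hS, Fin.cons_zero, Fin.cons_zero, map_one]
          · rw [hS, Fin.cons_succ, Fin.cons_succ, aeval_X]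
        rw [← e6, e2, map_zero]
      rw [e4, eval_smul_of_hom hC, e5, mul_zero, mul_zero]
  rcases mul_eq_zero.1 e3 with h1 | h1
  · exact X_ne_zero (R := k) (0 : Fin (ρ + 1)) h1
  · exact h0 h1

end alg

/-- the coordinates of the iterates -/
theorem coord (hCHN : Pool.Agent.H18.EDB.T_CHN) (hEDG : T_EDG) (hHVR : T_HVR) {ν r D : ℕ}
    {κ : Type} [Field κ] [Algebra Qb κ] {V : Ideal (Po (ν + 2) Qb)} {G : Tup (ν + 2) Qb}
    {η : Fin (ν + 2) → κ} {τ : κ →ₐ[Qb] κ} (hr : 1 ≤ r) (h : Fv V r G η τ) (hX : X 1 ∉ V)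
    (hG : ∀ i, (G i).IsHomogeneous D) (hinv : ∀ q, aeval G q ∈ V ↔ q ∈ V)
    (a : Fin r → Fin (ν + 2)) (ha : AlgebraicIndependent Qb (fun i => η (a i)))
    (hdg : 1 ≤ dg Qb (Set.range fun i => η (a i))) (S n : ℕ)
    (hS : ∀ (s₁ : Fin (ν + 2) → Qb) (a' : Fin (r - 1) → Fin (ν + 2) → Qb),
      dg Qb (insert (lc s₁ (pn τ η n)) (Set.range fun i => lc (a' i) η)) ≤ S)
    (j : Fin (ν + 2)) :
    ∃ (u : Po (ν + 2) Qb) (A : Finset Qb), u ∉ V ∧
      ∀ (K' : IntermediateField ℚ Qb) (F' : HFam K'), (∀ a ∈ A, a ∈ K') → ∃ c : ℝ,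
        ∀ y : Fin (ν + 2) → Qb, (∀ i, y i ∈ K') → (∀ q ∈ V, eval y q = 0) → y 1 ≠ 0 →
          (pmap G)^[n] y 1 ≠ 0 → eval y u ≠ 0 →
          hn F' ![af ((pmap G)^[n] y) j] ≤ S * hn F' (af y) + c := by
  classical
  obtain ⟨μ, hμ⟩ : ∃ μ : Fin r → κ, μ = fun i => η (a i) := ⟨_, rfl⟩
  rw [← hμ] at ha hdg
  have hfin : FiniteDimensional (IntermediateField.adjoin Qb (Set.range μ)) κ :=
    Module.finite_of_finrank_pos hdg
  have halg : Algebra.IsAlgebraic (IntermediateField.adjoin Qb (Set.range μ)) κ :=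
    Algebra.IsAlgebraic.of_finite _ _
  obtain ⟨E, Y, Cf, hE, hhom, -, hC0, hirr, hrel, -, s', hs'⟩ :=
    hCHN r Qb κ μ (pn τ η n j) hr h.gv.trd halg
  have hEd : E ≤ dg Qb (Set.range μ) := hEDG r E Y Qb κ μ _ Cf ha hfin hE hhom hC0 hirr hrel
  have hYS : Y ≤ S := by
    have h1 := hS (Pi.single j 1) (fun i => ∑ l, s' i l • Pi.single (a l) (1 : Qb))
    rw [Pool.Agent.H8.TD.lc_single] at h1
    have h2 : (fun i : Fin (r - 1) => lc (∑ l, s' i l • (Pi.single (a l) (1 : Qb) :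
        Fin (ν + 2) → Qb)) η) = fun i => lc (s' i) μ := by
      funext i
      have h3 : ∀ (T : Finset (Fin r)), lc (∑ l ∈ T, s' i l • (Pi.single (a l) (1 : Qb) :
          Fin (ν + 2) → Qb)) η = ∑ l ∈ T, s' i l • η (a l) := by
        intro T
        induction T using Finset.induction_on with
        | empty =>
          rw [Finset.sum_empty, Finset.sum_empty, lc]
          refine Finset.sum_eq_zero fun i _ => ?_
          rw [Pi.zero_apply, zero_smul]
        | insert l T hl ih =>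
          rw [Finset.sum_insert hl, Finset.sum_insert hl, ← ih]
          have h4 : η (a l) = lc (Pi.single (a l) (1 : Qb)) η :=
            (Pool.Agent.H8.TD.lc_single η (a l)).symm
          rw [h4]
          simp only [lc, Pi.add_apply, Pi.smul_apply, smul_eq_mul, add_smul, mul_smul,
            Finset.sum_add_distrib, Finset.smul_sum]
      rw [h3, lc, hμ]
    rw [h2] at h1
    have h5 : Y * dg Qb (Set.range μ) ≤ S * dg Qb (Set.range μ) :=
      hs'.trans ((Nat.mul_le_mul h1 hEd))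
    exact Nat.le_of_mul_le_mul_right h5 hdg
  obtain ⟨U, hU⟩ : ∃ U : Fin (r + 1) → Po (ν + 2) Qb, U = Fin.cons (X 1) (fun i => X (a i)) :=
    ⟨_, rfl⟩
  have hUh : ∀ i, (U i).IsHomogeneous 1 := by
    intro i
    rw [hU]
    refine Fin.cases ?_ (fun i => ?_) i
    · rw [Fin.cons_zero]
      exact isHomogeneous_X _ _
    · rw [Fin.cons_succ]
      exact isHomogeneous_X _ _
  have hUη : ∀ q : Po (r + 1) Qb, aeval η (aeval U q) =
      aeval (Fin.cons 1 μ : Fin (r + 1) → κ) q := by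
    intro q
    rw [← AlgHom.comp_apply, comp_aeval]
    congr 2
    funext i
    refine Fin.cases ?_ (fun i => ?_) i
    · rw [hU, Fin.cons_zero, Fin.cons_zero, aeval_X, h.gv.one]
    · rw [hU, Fin.cons_succ, Fin.cons_succ, aeval_X, hμ]
  have hCh : ∀ l, (aeval U (Cf l)).IsHomogeneous Y := by
    intro l
    have := IsHomogeneous.aeval (hhom l) U hUh
    rwa [one_mul] at this
  obtain ⟨hN, hpn⟩ := pnv_eq h hX hG hinv n
  -- the relation on `V`
  obtain ⟨R, hR⟩ : ∃ R : Po (ν + 2) Qb, R = ∑ l : Fin (E + 1), aeval U (Cf l) *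
    (it G n j ^ (E - (l : ℕ)) * it G n 1 ^ (l : ℕ)) := ⟨_, rfl⟩
  have hRh : R.IsHomogeneous (Y + D ^ n * E) := by
    rw [hR]
    refine IsHomogeneous.sum _ _ _ fun l _ => ?_
    have h1 := ((it_hom hG n j).pow (E - (l : ℕ))).mul ((it_hom hG n 1).pow (l : ℕ))
    have h2 : D ^ n * (E - (l : ℕ)) + D ^ n * (l : ℕ) = D ^ n * E := by
      rw [← Nat.mul_add, Nat.sub_add_cancel (Nat.lt_succ_iff.1 l.2)]
    rw [h2] at h1
    exact (hCh l).mul h1
  have hRV : R ∈ V := by
    rw [← h.gv.iff _ R hRh, hR, map_sum]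
    have h1 : ∀ l : Fin (E + 1), aeval η (aeval U (Cf l) *
        (it G n j ^ (E - (l : ℕ)) * it G n 1 ^ (l : ℕ))) = aeval η (it G n 1) ^ E *
        (aeval (Fin.cons 1 μ : Fin (r + 1) → κ) (Cf l) * pn τ η n j ^ (E - (l : ℕ))) := by
      intro l
      rw [map_mul, map_mul, map_pow, map_pow, hUη, hpn j, div_pow]
      have h2 : aeval η (it G n 1) ^ E =
          aeval η (it G n 1) ^ (E - (l : ℕ)) * aeval η (it G n 1) ^ (l : ℕ) := by
        rw [← pow_add, Nat.sub_add_cancel (Nat.lt_succ_iff.1 l.2)]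
      rw [h2]
      have h3 : aeval η (it G n 1) ^ (E - (l : ℕ)) ≠ 0 := pow_ne_zero _ hN
      field_simp
    rw [Finset.sum_congr rfl fun l _ => h1 l, ← Finset.mul_sum, hrel, mul_zero]
  refine ⟨aeval U (Cf 0), Finset.univ.biUnion fun l => (Cf l).coeffs, ?_, ?_⟩
  · rw [← h.gv.iff _ _ (hCh 0), hUη]
    exact cons_ne ha (hhom 0) hC0
  · intro K' F' hA
    obtain ⟨c, hc⟩ := hHVR r E Y Cf K' F' hE hhom fun l b hb =>
      hA b (Finset.mem_biUnion.2 ⟨l, Finset.mem_univ l, hb⟩)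
    refine ⟨c, fun y hyK hyV hy1 hz1 hyu => ?_⟩
    obtain ⟨w, hw⟩ : ∃ w : Fin (r + 1) → Qb, w = Fin.cons 1 (fun i => y (a i) / y 1) := ⟨_, rfl⟩
    have hwU : ∀ (q : Po (r + 1) Qb), q.IsHomogeneous Y →
        eval y (aeval U q) = y 1 ^ Y * eval w q := by
      intro q hq
      have h1 : eval y (aeval U q) = eval (fun i => y 1 * w i) q := by
        have e7 : ∀ (N : ℕ) (x : Fin N → Qb) (q : Po N Qb), eval x q = aeval x q :=
          fun N x q => by
            rw [aeval_def, ← eval₂_id]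
            rfl
        rw [e7, e7, ← AlgHom.comp_apply, comp_aeval]
        congr 2
        funext i
        refine Fin.cases ?_ (fun i => ?_) i
        · rw [hU, hw, Fin.cons_zero, Fin.cons_zero, aeval_X, mul_one]
        · rw [hU, hw, Fin.cons_succ, Fin.cons_succ, aeval_X, mul_div_cancel₀ _ hy1]
      rw [h1, eval_smul_of_hom hq]
    have hw0 : eval w (Cf 0) ≠ 0 := by
      intro h0
      apply hyu
      rw [hwU _ (hhom 0), h0, mul_zero]
    have hwK : ∀ i, w i ∈ K' := by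
      intro i
      rw [hw]
      refine Fin.cases ?_ (fun i => ?_) i
      · rw [Fin.cons_zero]
        exact one_mem K'
      · rw [Fin.cons_succ]
        exact div_mem (hyK _) (hyK _)
    obtain ⟨Z, hZ⟩ : ∃ Z : Fin (ν + 2) → Qb, Z = (pmap G)^[n] y := ⟨_, rfl⟩
    have hZ1 : Z 1 ≠ 0 := by
      rw [hZ]
      exact hz1
    have hrl : ∑ l : Fin (E + 1), eval w (Cf l) * (af Z j) ^ (E - (l : ℕ)) = 0 := by
      have h1 := hyV R hRV
      rw [hR, map_sum] at h1
      have h2 : ∀ l : Fin (E + 1), eval y (aeval U (Cf l) *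
          (it G n j ^ (E - (l : ℕ)) * it G n 1 ^ (l : ℕ))) = (y 1 ^ Y * Z 1 ^ E) *
          (eval w (Cf l) * (af Z j) ^ (E - (l : ℕ))) := by
        intro l
        have h3 : ∀ i, eval y (it G n i) = Z i := by
          intro i
          rw [hZ, ← pmap_it]
          rfl
        rw [map_mul, map_mul, map_pow, map_pow, hwU _ (hhom l), h3, h3, af, div_pow]
        have h4 : Z 1 ^ E = Z 1 ^ (E - (l : ℕ)) * Z 1 ^ (l : ℕ) := by
          rw [← pow_add, Nat.sub_add_cancel (Nat.lt_succ_iff.1 l.2)]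
        rw [h4]
        have h5 : Z 1 ^ (E - (l : ℕ)) ≠ 0 := pow_ne_zero _ hZ1
        field_simp
      rw [Finset.sum_congr rfl fun l _ => h2 l, ← Finset.mul_sum] at h1
      exact (mul_eq_zero.1 h1).resolve_left (mul_ne_zero (pow_ne_zero _ hy1) (pow_ne_zero _ hZ1))
    have h6 := hc w (af Z j) hwK hw0 hrl
    rw [hZ] at h6
    refine h6.trans ?_
    have h7 : hn F' w ≤ hn F' (af y) := by
      apply Pool.Agent.H8.TX.hn_mono
      intro i
      apply Pool.Agent.H8.TX.szn_le (Pool.Agent.H8.TX.one_le_szn _ _)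
      intro l
      rw [hw]
      refine Fin.cases ?_ (fun l => ?_) l
      · rw [Fin.cons_zero, map_one]
        exact Pool.Agent.H8.TX.one_le_szn _ _
      · rw [Fin.cons_succ]
        exact Pool.Agent.H8.TX.le_szn _ (af y) (a l)
    have h8 : (Y : ℝ) ≤ S := by exact_mod_cast hYS
    have h9 := Pool.Agent.H8.TX.hn_nonneg F' w
    have h10 : (Y : ℝ) * hn F' w ≤ S * hn F' (af y) :=
      mul_le_mul h8 h7 h9 (Nat.cast_nonneg _)
    linarith

theorem pf_VSF (hFLV : T_FLV) (hVDM : Pool.Agent.H2.ED.T_VDM) (hVDF : T_VDF)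
    (hCHN : Pool.Agent.H18.EDB.T_CHN) (hEDG : T_EDG) (hHVR : T_HVR) : T_VSF := by
  classical
  intro ν r₀ d k P F V K _ _ ξ τ hν hP hF hd hs hfd hk hV hH hX hPV hc hnp hinv h0 hj
  have hG : ∀ i, (it F k i).IsHomogeneous (d ^ k) := it_hom hF k
  obtain ⟨r, κ, iκ, iA, η, τV, hfv⟩ := hFLV ν (d ^ k) Qb V (it F k) hV hH hX hG hinv
  have hrν : r + 2 ≤ ν := hVDM ν r₀ r Qb κ P V η hP hV hH hPV hc hnp hfv.gv
  have hVz : ∀ (y : Fin (ν + 2) → Qb) (n : ℕ), (∀ q ∈ V, eval y q = 0) →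
      ∀ q ∈ V, eval ((pmap (it F k))^[n] y) q = 0 := by
    intro y n hy
    exact zer_iterate (fun c hc => (hinv c).2 hc) hy n
  rcases Nat.eq_zero_or_pos r with hr | hr
  · subst hr
    have h1 : Algebra.IsAlgebraic Qb κ := by
      refine trdeg_eq_zero_iff.1 ?_
      rw [hfv.gv.trd, Nat.cast_zero]
    have h2 : ∀ i, ∃ c : Qb, algebraMap Qb κ c = η i := fun i =>
      IsAlgClosed.algebraMap_bijective_of_isIntegral.2 (η i)
    choose c hc' using h2
    have h3 : ∀ y : Fin (ν + 2) → Qb, (∀ q ∈ V, eval y q = 0) → y 1 ≠ 0 → af y = c := by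
      intro y hy hy1
      funext i
      have h4 : X i - C (c i) * X 1 ∈ V := by
        rw [← hfv.gv.iff 1]
        · rw [map_sub, map_mul, aeval_X, aeval_X, aeval_C, hc', hfv.gv.one, mul_one, sub_self]
        · refine IsHomogeneous.sub (isHomogeneous_X _ _) ?_
          have := (isHomogeneous_C (Fin (ν + 2)) (c i)).mul (isHomogeneous_X Qb (1 : Fin (ν + 2)))
          rwa [zero_add] at this
      have h5 := hy _ h4
      rw [map_sub, map_mul, eval_X, eval_X, eval_C, sub_eq_zero] at h5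
      rw [af, h5, mul_div_cancel_right₀ _ hy1]
    refine ⟨0, fun n B _ => ⟨1, ∅, ?_, fun K' F' _ => ⟨hn F' c, fun y _ hy _ hz1 _ => ?_⟩⟩⟩
    · exact (Ideal.ne_top_iff_one V).1 hV.ne_top
    · rw [h3 _ (hVz y n hy) hz1, Nat.cast_zero, zero_mul, zero_mul, zero_add]
  · obtain ⟨s, hs'⟩ := hVDF ν r₀ r d k P F V K κ ξ η τ τV hν hP hF hd hs hfd hk hV hH hX hPV hr
      hrν hinv hfv h0 hj
    obtain ⟨a, ha, hdg⟩ := exists_coord hfv.gv
    refine ⟨(ν + 2) * s, fun n B hB => ?_⟩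
    have h1 := fun j => coord hCHN hEDG hHVR hr hfv hX hG hinv a ha hdg (s * B) n
      (hs' n B hB) j
    choose u A hu hA using h1
    refine ⟨∏ j, u j, Finset.univ.biUnion A, ?_, ?_⟩
    · rw [hV.prod_mem_iff]
      rintro ⟨j, -, hj'⟩
      exact hu j hj'
    · intro K' F' hK'
      have h2 := fun j => hA j K' F' fun b hb =>
        hK' b (Finset.mem_biUnion.2 ⟨j, Finset.mem_univ j, hb⟩)
      choose c hc' using h2
      refine ⟨∑ j, c j, fun y hyK hyV hy1 hz1 hyu => ?_⟩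
      rw [map_prod] at hyu
      refine (Pool.Agent.H8.TX.hn_le_sum F' _).trans ?_
      calc ∑ j, hn F' ![af ((pmap (it F k))^[n] y) j] ≤
          ∑ j, (((s * B : ℕ) : ℝ) * hn F' (af y) + c j) := by
            refine Finset.sum_le_sum fun j _ => ?_
            exact hc' j y hyK hyV hy1 hz1 fun h => hyu (Finset.prod_eq_zero (Finset.mem_univ j) h)
        _ = _ := by
            rw [Finset.sum_add_distrib, Finset.sum_const, Finset.card_univ, Fintype.card_fin,
              nsmul_eq_mul]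
            push_cast
            ring

end Pool.Agent.H4.EDA
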